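import Pool.Agent.XW.Fin

/-!
# The 2-converse for the twists of `X_0(15)` by all the imaginary quadratic fields in which 3 splits
# and 5 is inert

`C_D : y² = x³ - 12987 d² x - 263466 d³` is the quadratic twist of the modular curve `X_0(15)` by the imaginary
quadratic field `ℚ(√D) = ℚ(√d)` of discriminant `D`, `d` squarefree. The curve has no complex
multiplication; its three points of order two are rational; it has no rational isogeny of odd degree. `D`
is ANY negative discriminant, odd or even, such that 3 splits and 5 is inert in `ℚ(√D)`; there is no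
restriction on the prime factors of `D` or on their number.

* `C_D(ℚ)` is finite with `Ш(C_D/ℚ)[2] = 0` if and only if the class group of `ℚ(√D)` has no element of
  order four.
* In this case `ord_{s=1} L(C_D, s) = 0 = rank C_D(ℚ)` (the `2`-converse in the minimal case).
* The proportion of these `D`, in the order of `|D|`, tends to `∏_{i ≥ 1} (1 - 2^{-i}) = 0.2887…`; the same
  is true for the `D` in any set of residue classes modulo any `m`, prime to `m`. So the rank form of the
  conjecture of Birch and Swinnerton-Dyer holds, with order and rank zero, for a positive proportion of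
  all the quadratic twists: the number of these `D` with `|D| ≤ X` is asymptotic to
  `(15 / (32 π²)) ∏_{i ≥ 1} (1 - 2^{-i}) X`, that is for `4.5%` of all the imaginary quadratic fields.

The main new point is the nonvanishing of `L(C_D, 1)`: the class modulo two of the algebraic part is
the determinant of the reduced Rédei matrix. The value is expressed by sums of classes of pairs of elements
of a maximal order of the quaternion algebra of discriminant 5 with level structure at 3, over all the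
splittings of `D`; modules `Pool.Agent.XV`, `Pool.Agent.XW`, joint work with many helpers.
-/

set_option autoImplicit false

open Filter Topology

namespace Pool.Agent.Results.MP_696deb_nt.AllImaginaryFieldsX15

/-- the squarefree integer `d` with `ℚ(√D) = ℚ(√d)`, for the discriminant `D` of a quadratic field -/
def sqf (D : ℤ) : ℤ := if D % 4 = 0 then D / 4 else D

/-- coefficients of the twist `C_D : y² = x³ + A D x + B D` of `X_0(15)` -/
def A (D : ℤ) : ℤ := -12987 * sqf D ^ 2

/-- coefficients of the twist `C_D : y² = x³ + A D x + B D` of `X_0(15)` -/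
def B (D : ℤ) : ℤ := -263466 * sqf D ^ 3

/-- the curve `C_D` over `ℚ` -/
def C (D : ℤ) : WeierstrassCurve ℚ :=
  { a₁ := 0, a₂ := 0, a₃ := 0, a₄ := (A D : ℚ), a₆ := (B D : ℚ) }

/-- `C_D(ℚ)` is finite and `Ш(C_D/ℚ)` has no element of order two -/
def RankZeroShaTwo (D : ℤ) : Prop :=
  Finite (C D).toAffine.Point ∧ ∀ x : Pool.Agent.TH841.SH.D.Sha (C D), 2 • x = 0 → x = 0

/-- the conclusion of the frozen statement for `y² = x³ + a x + b`, with both the order of vanishing
and the rank equal to `0` -/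
def BSDRankZero (a b : ℤ) : Prop :=
  4 * a ^ 3 + 27 * b ^ 2 ≠ 0 ∧
    ∃ F : ℂ → ℂ, Differentiable ℂ F ∧
      (∀ s : ℂ, (3 : ℝ) / 2 < s.re →
        HasProd
          (fun p : ℕ => open Classical in
            if p.Prime ∧ ¬ ((p : ℤ) ∣ 2 * (-4 * a ^ 3 - 27 * b ^ 2)) then
              (1 - ((p : ℂ) - (Nat.card {q : ZMod p × ZMod p //
                  q.2 ^ 2 = q.1 ^ 3 + (a : ZMod p) * q.1 + (b : ZMod p)} : ℂ))
                  * (p : ℂ) ^ (-s) + (p : ℂ) ^ (1 - 2 * s))⁻¹
            else 1)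
          (F s)) ∧
      analyticOrderAt F 1 = 0 ∧
      Module.finrank ℤ
        (WeierstrassCurve.Affine.Point
          (WeierstrassCurve.toAffine
            ({ a₁ := 0, a₂ := 0, a₃ := 0, a₄ := (a : ℚ), a₆ := (b : ℚ) } :
              WeierstrassCurve ℚ))) = 0

/-- `D` is the discriminant of an imaginary quadratic field -/
def IsDisc (D : ℤ) : Prop := D < 0 ∧ ((D % 4 = 1 ∧ Squarefree D) ∨
  (D % 4 = 0 ∧ Squarefree (D / 4) ∧ ((D / 4) % 4 = 2 ∨ (D / 4) % 4 = 3)))

/-- the discriminants of the imaginary quadratic fields in which 3 splits and 5 is inert -/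
def InClass (D : ℤ) : Prop := IsDisc D ∧ D % 3 = 1 ∧ (D % 5 = 2 ∨ D % 5 = 3)

/-- The class group of the quadratic field `ℚ(√D)` has no element of order four. -/
def NoFour (D : ℤ) : Prop := ∀ (K : Type) [Field K] [NumberField K], Module.finrank ℚ K = 2 →
  (∃ a : K, a ^ 2 = (D : K)) →
  ∀ c : ClassGroup (NumberField.RingOfIntegers K), c ^ 4 = 1 → c ^ 2 = 1

open Classical in
/-- the number of the integers `D`, `|D| ≤ X`, with the property `Q` -/
noncomputable def count (Q : ℤ → Prop) (X : ℕ) : ℕ :=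
  ((Finset.Icc (-(X : ℤ)) X).filter Q).card

section proof

open Pool.Agent.NH3.XE (FD KrF f_dens f_law_T)
open Pool.Agent.NH3.XD (cZ cZ_congr)
open Pool.Agent.XV.T (RZ)
open Pool.Agent.XW.F (all_out)

theorem fd_iff {D : ℤ} : InClass D ↔ FD D := by
  unfold InClass IsDisc FD
  tauto

theorem rankZero_iff (D : ℤ) : RankZeroShaTwo D ↔ RZ (sqf D) := by
  unfold RankZeroShaTwo RZ
  refine and_congr Iff.rfl (forall_congr' fun x => ?_)
  rw [two_nsmul]
  rfl

theorem count_eq (Q : ℤ → Prop) (X : ℕ) : count Q X = cZ Q X := rfl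

theorem disc_ne {D : ℤ} (h : sqf D ≠ 0) : 4 * A D ^ 3 + 27 * B D ^ 2 ≠ 0 := by
  have e : 4 * A D ^ 3 + 27 * B D ^ 2 = -6887475360000 * sqf D ^ 6 := by
    unfold A B
    ring
  rw [e]
  exact mul_ne_zero (by norm_num) (pow_ne_zero 6 h)

theorem noFour_iff (D : ℤ) : NoFour D ↔ Pool.Agent.XR.NoFour (sqf D) := by
  have key : ∀ (K : Type) [Field K] [NumberField K],
      (∃ a : K, a ^ 2 = (D : K)) ↔ ∃ a : K, a ^ 2 = ((sqf D : ℤ) : K) := by
    intro K _ _
    by_cases h : D % 4 = 0
    · have e : D = 4 * sqf D := by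
        unfold sqf
        rw [if_pos h]
        omega
      constructor
      · rintro ⟨a, ha⟩
        refine ⟨a / 2, ?_⟩
        rw [div_pow, ha]
        conv_lhs => rw [e]
        push_cast
        ring
      · rintro ⟨a, ha⟩
        refine ⟨2 * a, ?_⟩
        rw [mul_pow, ha]
        conv_rhs => rw [e]
        push_cast
        ring
    · have e : sqf D = D := if_neg h
      rw [e]
  unfold NoFour Pool.Agent.XR.NoFour
  constructor
  · intro h K _ _ h1 h2
    exact h K h1 ((key K).2 h2)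
  · intro h K _ _ h1 h2
    exact h K h1 ((key K).1 h2)

theorem main {D : ℤ} (h : InClass D) : (RankZeroShaTwo D ↔ NoFour D) ∧
    (RankZeroShaTwo D ↔ KrF D) ∧ (RankZeroShaTwo D → BSDRankZero (A D) (B D)) := by
  have hD : FD D := fd_iff.1 h
  obtain ⟨h1, h2, h3⟩ := all_out hD
  refine ⟨?_, ?_, fun h4 => ⟨disc_ne (Pool.Agent.XW.F.ne_zero hD), h3 ((rankZero_iff D).1 h4)⟩⟩
  · rw [rankZero_iff, noFour_iff]
    exact h1.trans h2
  · rw [rankZero_iff]
    exact h1

/-- the equality of the two properties -/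
theorem both {D : ℤ} (h : InClass D) : KrF D ↔ RankZeroShaTwo D ∧ BSDRankZero (A D) (B D) :=
  ⟨fun g => ⟨(main h).2.1.2 g, (main h).2.2 ((main h).2.1.2 g)⟩, fun g => (main h).2.1.1 g.1⟩

end proof

open Pool.Agent.NH3.XE Pool.Agent.NH3.XD Pool.Agent.NH5.PR in
/-- **Main theorem.** -/
theorem result :
    (∀ D : ℤ, InClass D → (RankZeroShaTwo D ↔ NoFour D) ∧
      (RankZeroShaTwo D → BSDRankZero (A D) (B D))) ∧
    (0.2887 < ∏' i : ℕ, (1 - (1 / 2 : ℝ) ^ (i + 1)) ∧ ∏' i : ℕ, (1 - (1 / 2 : ℝ) ^ (i + 1)) < 0.2888) ∧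
    (Tendsto (fun X : ℕ => (count (fun D => InClass D ∧ RankZeroShaTwo D ∧
        BSDRankZero (A D) (B D)) X : ℝ) / X) atTop
      (𝓝 ((∏' i : ℕ, (1 - (1 / 2 : ℝ) ^ (i + 1))) * (15 / (32 * Real.pi ^ 2))))) ∧
    ∀ (m : ℕ) (T : Finset ℤ), 0 < m →
      (∃ D : ℤ, InClass D ∧ Int.gcd D m = 1 ∧ D % m ∈ T) →
      Tendsto (fun X : ℕ =>
        (count (fun D => (InClass D ∧ Int.gcd D m = 1 ∧ D % m ∈ T) ∧ RankZeroShaTwo D ∧
          BSDRankZero (A D) (B D)) X : ℝ) /
        (count (fun D => InClass D ∧ Int.gcd D m = 1 ∧ D % m ∈ T) X : ℝ)) atTop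
        (𝓝 (∏' i : ℕ, (1 - (1 / 2 : ℝ) ^ (i + 1)))) ∧
      ∃ (c : ℝ) (X₀ : ℕ), 0 < c ∧ ∀ X : ℕ, X₀ ≤ X → c * X ≤
        (count (fun D => (InClass D ∧ Int.gcd D m = 1 ∧ D % m ∈ T) ∧ RankZeroShaTwo D ∧
          BSDRankZero (A D) (B D)) X : ℝ) := by
  refine ⟨fun D hD => ⟨(main hD).1, (main hD).2.2⟩, ⟨t_ETA.2.2.2.1, t_ETA.2.2.2.2⟩, ?_,
    fun m T hm ha => ?_⟩
  · refine f_dens.congr fun X => ?_
    have e : cZ (fun D => FD D ∧ KrF D) X =
        count (fun D => InClass D ∧ RankZeroShaTwo D ∧ BSDRankZero (A D) (B D)) X := by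
      rw [count_eq]
      refine cZ_congr (fun D => ?_) X
      rw [← fd_iff]
      exact and_congr_right fun g => both (D := D) g
    rw [e]
  obtain ⟨D₀, b1, b2, b3⟩ := ha
  obtain ⟨h1, c, X₀, hc, h2⟩ := f_law_T hm T ⟨D₀, fd_iff.1 b1, b2, b3⟩
  have e : ∀ X : ℕ, cZ (fun D => (FD D ∧ Int.gcd D m = 1 ∧ D % m ∈ T) ∧ KrF D) X =
      count (fun D => (InClass D ∧ Int.gcd D m = 1 ∧ D % m ∈ T) ∧ RankZeroShaTwo D ∧
          BSDRankZero (A D) (B D)) X := by
    intro X
    rw [count_eq]
    refine cZ_congr (fun D => ?_) X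
    rw [← fd_iff]
    exact and_congr_right fun g => both (D := D) g.1
  have e' : ∀ X : ℕ, cZ (fun D => FD D ∧ Int.gcd D m = 1 ∧ D % m ∈ T) X =
      count (fun D => InClass D ∧ Int.gcd D m = 1 ∧ D % m ∈ T) X := by
    intro X
    rw [count_eq]
    refine cZ_congr (fun D => ?_) X
    rw [← fd_iff]
  refine ⟨?_, c, X₀, hc, fun X hX => ?_⟩
  · refine h1.congr fun X => ?_
    rw [← e X, ← e' X]
  · rw [← e X]
    exact h2 X hX

end Pool.Agent.Results.MP_696deb_nt.AllImaginaryFieldsX15
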