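import Pool.Agent.NH5.LK.Fin

/-!
# The `2`-converse for the quadratic twists of `X_0(14)`: all types of primes

`C_D : y² = x³ + 5805 D² x - 285714 D³` is the quadratic twist by `D` of a model of the modular curve
`X_0(14)`, which has no complex multiplication; `D ≠ 1` is any squarefree integer, positive or negative,
`D ≡ 1 mod 4` and prime to `7`. The prime factors `p` of `D` are of four types: `p` is split or inert in
`ℚ(√2)`, and split or inert in `ℚ(√-7)`. Let `nA` be the number of those which are split in `ℚ(√2)` and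
inert in `ℚ(√-7)`, and let `nB` be the number of those which are inert in `ℚ(√2)` and split in `ℚ(√-7)`.

For all `D` with `nB ≤ nA` we prove the `2`-converse theorem in the minimal case: if `C_D(ℚ)` is finite and
`Ш(C_D/ℚ)[2] = 0`, then `ord_{s=1} L(C_D, s) = 0 = rank C_D(ℚ)`. There is no restriction on the prime
factors of `D` or on their number. Moreover the condition holds if and only if the matrix `M D` over `𝔽₂`
is square and nonsingular: its rows are the prime factors which are split in `ℚ(√-7)`, its columns those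
which are split in `ℚ(√2)`, and its entries are the quadratic residue symbols. (It is square iff
`nA = nB`.)

The main new point is the nonvanishing of `L(C_D, 1)`: the class modulo two of the algebraic part is
the determinant of `M D`. The twists by the divisors of `D` do not suffice to see this if there are primes
which are split in exactly one of the two fields, since most of the root numbers are `-1`. Instead the value
is expressed by sums of classes of binary quadratic forms (level structure at 7) over all the splittings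
of `D`; they satisfy reflection, rotation and product formulas and their sums over the subsets of the prime
factors are determinants by a flip (reciprocity) argument: modules `NH1`, `NH2`, `NH5/LK`, joint work with
many helpers.
-/

set_option autoImplicit false

namespace Pool.Agent.Results.MP_696deb_nt.CompleteTwoConverse

/-- coefficients of the twist `C_D : y² = x³ + A D x + B D` of `X_0(14)` -/
def A (D : ℤ) : ℤ := 5805 * D ^ 2

/-- coefficients of the twist `C_D : y² = x³ + A D x + B D` of `X_0(14)` -/
def B (D : ℤ) : ℤ := -285714 * D ^ 3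

/-- the curve `C_D` over `ℚ` -/
def C (D : ℤ) : WeierstrassCurve ℚ :=
  { a₁ := 0, a₂ := 0, a₃ := 0, a₄ := (A D : ℚ), a₆ := (B D : ℚ) }

/-- `C_D(ℚ)` is finite and `Ш(C_D/ℚ)` has no element of order two -/
def RankZeroShaTwo (D : ℤ) : Prop :=
  Finite (C D).toAffine.Point ∧ ∀ x : Pool.Agent.TH841.SH.D.Sha (C D), 2 • x = 0 → x = 0

/-- the conclusion of the frozen statement for `y² = x³ + a x + b`, with both the order of vanishing
and the rank equal to `0` -/
def BSDRankZero (a b : ℤ) : Prop :=
  4 * a ^ 3 + 27 * b ^ 2 ≠ 0 ∧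
    ∃ F : ℂ → ℂ, Differentiable ℂ F ∧
      (∀ s : ℂ, (3 : ℝ) / 2 < s.re →
        HasProd
          (fun p : ℕ => open Classical in
            if p.Prime ∧ ¬ ((p : ℤ) ∣ 2 * (-4 * a ^ 3 - 27 * b ^ 2)) then
              (1 - ((p : ℂ) - (Nat.card {q : ZMod p × ZMod p //
                  q.2 ^ 2 = q.1 ^ 3 + (a : ZMod p) * q.1 + (b : ZMod p)} : ℂ))
                  * (p : ℂ) ^ (-s) + (p : ℂ) ^ (1 - 2 * s))⁻¹
            else 1)
          (F s)) ∧
      analyticOrderAt F 1 = 0 ∧
      Module.finrank ℤ
        (WeierstrassCurve.Affine.Point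
          (WeierstrassCurve.toAffine
            ({ a₁ := 0, a₂ := 0, a₃ := 0, a₄ := (a : ℚ), a₆ := (b : ℚ) } :
              WeierstrassCurve ℚ))) = 0

/-- the odd prime `p ≠ 7` is split in `ℚ(√2)`: `p ≡ ± 1 mod 8` -/
def Sq2 (p : ℕ) : Prop := p % 8 = 1 ∨ p % 8 = 7

instance (p : ℕ) : Decidable (Sq2 p) := by unfold Sq2; infer_instance

/-- the odd prime `p ≠ 7` is split in `ℚ(√-7)`: `p` is a square modulo `7` -/
def Sq7 (p : ℕ) : Prop := p % 7 = 1 ∨ p % 7 = 2 ∨ p % 7 = 4

instance (p : ℕ) : Decidable (Sq7 p) := by unfold Sq7; infer_instance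

/-- the number of the prime factors of `D` which are split in `ℚ(√2)` and inert in `ℚ(√-7)` -/
def nA (D : ℤ) : ℕ := (D.natAbs.primeFactors.filter fun p => Sq2 p ∧ ¬ Sq7 p).card

/-- the number of the prime factors of `D` which are inert in `ℚ(√2)` and split in `ℚ(√-7)` -/
def nB (D : ℤ) : ℕ := (D.natAbs.primeFactors.filter fun p => ¬ Sq2 p ∧ Sq7 p).card

/-- the rows of the matrix: the prime factors of `D` which are split in `ℚ(√-7)` -/
def rows (D : ℤ) : Finset ℕ := D.natAbs.primeFactors.filter fun p => Sq7 p

/-- the columns of the matrix: the prime factors of `D` which are split in `ℚ(√2)` -/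
def cols (D : ℤ) : Finset ℕ := D.natAbs.primeFactors.filter fun p => Sq2 p

open Classical in
/-- `1` if `p` is not a square modulo `q`, and `0` otherwise -/
noncomputable def sym (p q : ℕ) : ZMod 2 := if IsSquare (p : ZMod q) then 0 else 1

open Classical in
/-- The matrix `M D` over `𝔽₂`: the entry at `(p, q)`, `p ≠ q`, is `1` if `p` is not a square modulo
`q`; the entry at `(p, p)` is the number of the prime factors `t ≠ p` of `D` modulo which `p` is not a
square, plus `1` if `p` is of the form `2 x² + 7 y²`. -/
noncomputable def M (D : ℤ) : Matrix (rows D) (cols D) (ZMod 2) := Matrix.of fun p q =>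
  if (p : ℕ) = q then
    (if ∃ x y : ℕ, (p : ℕ) = 2 * x ^ 2 + 7 * y ^ 2 then 1 else 0) +
      ∑ t ∈ D.natAbs.primeFactors.erase p, sym p t
  else sym p q

/-- The matrix is square and nonsingular. -/
def Nonsingular (D : ℤ) : Prop :=
  (rows D).card = (cols D).card ∧ Function.Bijective (M D).mulVec

section proof

open Pool.Agent.NH5.LK Pool.Agent.NH5.GD
open Pool.Agent.NH1 (Lp lg gX sS sI sA sB sq2 sq7)

theorem rankZero_iff (D : ℤ) : RankZeroShaTwo D ↔ NoSel D := by
  unfold RankZeroShaTwo NoSel
  refine and_congr Iff.rfl (forall_congr' fun x => ?_)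
  rw [two_nsmul]
  rfl

theorem rows_eq (D : ℤ) : rows D = sS D.natAbs.primeFactors ∪ sB D.natAbs.primeFactors := by
  ext p
  rw [mem_row]
  exact Finset.mem_filter

theorem cols_eq (D : ℤ) : cols D = sS D.natAbs.primeFactors ∪ sA D.natAbs.primeFactors := by
  ext p
  rw [mem_col]
  exact Finset.mem_filter

theorem sym_eq {N : Finset ℕ} (hN : Pool.Agent.NH1.Pm N) {p q : ℕ} (hp : p ∈ N) (hq : q ∈ N)
    (hpq : p ≠ q) : sym p q = lg p q := by
  rw [lg_nr hN hp hq hpq]
  rfl

theorem entry_eq {D : ℤ} (hA : Adm D) (p : rows D) (q : cols D) :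
    M D p q = Lp lg gX D.natAbs.primeFactors p q := by
  classical
  have hN := pf_pm hA
  have hp := (Finset.mem_filter.1 p.2).1
  have hq := (Finset.mem_filter.1 q.2).1
  show (if (p : ℕ) = q then _ else _) = _
  unfold Lp
  split_ifs with h
  · unfold gX Pool.Agent.Z700.X2
    rw [if_pos (by assumption)]
    congr 1
    exact Finset.sum_congr rfl fun t ht =>
      sym_eq hN hp (Finset.mem_of_mem_erase ht) (Finset.mem_erase.1 ht).1.symm
  · unfold gX Pool.Agent.Z700.X2
    rw [if_neg (by assumption)]
    congr 1
    exact Finset.sum_congr rfl fun t ht =>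
      sym_eq hN hp (Finset.mem_of_mem_erase ht) (Finset.mem_erase.1 ht).1.symm
  · exact sym_eq hN hp hq h

theorem nonsing_iff {D : ℤ} (hA : Adm D) : Nonsingular D ↔ Good D := by
  classical
  rw [good_perm hA]
  unfold Nonsingular
  rw [inj_bij, Fintype.card_coe, Fintype.card_coe]
  have e : M D = Matrix.of fun (p : rows D) (q : cols D) =>
      Lp lg gX D.natAbs.primeFactors p q := by
    ext p q
    exact entry_eq hA p q
  rw [e, ← rows_eq, ← cols_eq]
  tauto

end proof

/-- **Main theorem.** Let `D ≠ 1` be squarefree, `D ≡ 1 mod 4`, prime to `7`, with `nB D ≤ nA D`. Then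
`C_D(ℚ)` is finite with `Ш(C_D/ℚ)[2] = 0` if and only if the matrix `M D` is square and nonsingular,
and in this case the rank form of the conjecture of Birch and Swinnerton-Dyer holds for `C_D`, with
the order of vanishing and the rank equal to zero. -/
theorem result (D : ℤ) (hs : Squarefree D) (h4 : D % 4 = 1) (h7 : ¬ (7 : ℤ) ∣ D) (h1 : D ≠ 1)
    (hc : nB D ≤ nA D) :
    (RankZeroShaTwo D ↔ Nonsingular D) ∧ (RankZeroShaTwo D → BSDRankZero (A D) (B D)) := by
  have hA : Pool.Agent.NH5.GD.Adm D := ⟨hs, h4, h7⟩
  have hc' : Pool.Agent.NH5.LK.nB D ≤ Pool.Agent.NH5.LK.nA D := hc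
  refine ⟨?_, fun h => ?_⟩
  · rw [rankZero_iff, nonsing_iff hA]
    exact Pool.Agent.NH5.LK.crit_ev hA hc'
  · have h2 := Pool.Agent.NH5.LK.bsd_of hA h1 hc' ((rankZero_iff D).1 h)
    exact ⟨Pool.Agent.NH5.LK.disc_ne hA.n0, h2⟩

end Pool.Agent.Results.MP_696deb_nt.CompleteTwoConverse
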