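import Pool.Agent.NH4.XI.App
import Pool.Agent.X24.F.Out

/-!
# The rank form for any number of twists of `X_0(15)` and of `X_0(24)`: the joint law in the natural order

`C_D : y² = x³ - 12987 D² x - 263466 D³` and `E_D : y² = x³ - 351 D² x + 1890 D³` are the quadratic twists by `D`
of the modular curves `X_0(15)` and `X_0(24)`. These curves have no complex multiplication and are not
isogenous. `M` runs through the negative squarefree numbers `M ≡ 13` or `37 mod 120`, in the order of `|M|`;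
there is no restriction on the prime factors of `M` or on their number. Let `x_1, …, x_k` be ANY different
positive squarefree numbers (also `1`, also with common factors), each of them a shift for one of the curves or
for both: `x` is a shift for `X_0(15)` if `3` and `5` split in `ℚ(√x)` (`x ≡ 1 mod 3`, `x ≡ 1, 4 mod 5`), and a
shift for `X_0(24)` if `x ≡ 1 mod 24`.

* For each of the two curves and each of its shifts `x`: the group of rational points of the twist by `M x` is
  finite and there is no element of order two in its `Ш` if and only if the class group of `ℚ(√(M x))` has no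
  element of order four. In this case `ord_{s=1} L = 0 = rank` for this twist.
* The events for `x_1, …, x_k` are independent, each has the probability `η = ∏ (1 - 2^{-i}) = 0.2887…`: for
  every subset `T` of the indices, for the proportion `η ^ |T| (1 - η) ^ (k - |T|)` of the `M` the statement
  (finiteness, `Ш[2] = 0`, and the rank form with order and rank `0`) is true for the twists of both curves by
  `M x_t`, `t ∈ T`, and the finiteness with `Ш[2] = 0` fails for the twists by `M x_t`, `t ∉ T`. This is also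
  true for the `M` in any set of residue classes to any modulus which contains an element of the class, and the
  number of these `M` with `|M| ≤ X` is at least `c X`, `c > 0`. The number of these `M` in the whole class is
  asymptotic to `(5 / (32 π²)) η ^ |T| (1 - η) ^ (k - |T|) X`, which is the proportion
  `(5 / 384) η ^ |T| (1 - η) ^ (k - |T|)` of all squarefree integers (of both signs).
-/

set_option autoImplicit false

open Filter Topology

namespace Pool.Agent.Results.MP_696deb_nt.JointLawX15X24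

/-- the twist `C_D : y² = x³ + A15 D x + B15 D` of `X_0(15)`: coefficients -/
def A15 (D : ℤ) : ℤ := -12987 * D ^ 2

/-- the twist `C_D : y² = x³ + A15 D x + B15 D` of `X_0(15)`: coefficients -/
def B15 (D : ℤ) : ℤ := -263466 * D ^ 3

/-- the twist `E_D : y² = x³ + A24 D x + B24 D` of `X_0(24)`: coefficients -/
def A24 (D : ℤ) : ℤ := -351 * D ^ 2

/-- the twist `E_D : y² = x³ + A24 D x + B24 D` of `X_0(24)`: coefficients -/
def B24 (D : ℤ) : ℤ := 1890 * D ^ 3

/-- the curve `y² = x³ + a x + b` over `ℚ` -/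
def curve (a b : ℤ) : WeierstrassCurve ℚ :=
  { a₁ := 0, a₂ := 0, a₃ := 0, a₄ := (a : ℚ), a₆ := (b : ℚ) }

/-- for `y² = x³ + a x + b`: there are finitely many rational points and `Ш` has no element of order two -/
def RankZeroShaTwo (a b : ℤ) : Prop :=
  Finite (curve a b).toAffine.Point ∧
    ∀ x : Pool.Agent.TH841.SH.D.Sha (curve a b), 2 • x = 0 → x = 0

/-- the conclusion of the frozen statement for `y² = x³ + a x + b`, with both the order of vanishing
and the rank equal to `0` -/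
def BSDRankZero (a b : ℤ) : Prop :=
  4 * a ^ 3 + 27 * b ^ 2 ≠ 0 ∧
    ∃ F : ℂ → ℂ, Differentiable ℂ F ∧
      (∀ s : ℂ, (3 : ℝ) / 2 < s.re →
        HasProd
          (fun p : ℕ => open Classical in
            if p.Prime ∧ ¬ ((p : ℤ) ∣ 2 * (-4 * a ^ 3 - 27 * b ^ 2)) then
              (1 - ((p : ℂ) - (Nat.card {q : ZMod p × ZMod p //
                  q.2 ^ 2 = q.1 ^ 3 + (a : ZMod p) * q.1 + (b : ZMod p)} : ℂ))
                  * (p : ℂ) ^ (-s) + (p : ℂ) ^ (1 - 2 * s))⁻¹
            else 1)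
          (F s)) ∧
      analyticOrderAt F 1 = 0 ∧
      Module.finrank ℤ
        (WeierstrassCurve.Affine.Point
          (WeierstrassCurve.toAffine
            ({ a₁ := 0, a₂ := 0, a₃ := 0, a₄ := (a : ℚ), a₆ := (b : ℚ) } :
              WeierstrassCurve ℚ))) = 0

/-- `X_0(15)`: the condition and the rank form for the twist by `D` -/
def Good15 (D : ℤ) : Prop := RankZeroShaTwo (A15 D) (B15 D) ∧ BSDRankZero (A15 D) (B15 D)

/-- `X_0(24)`: the condition and the rank form for the twist by `D` -/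
def Good24 (D : ℤ) : Prop := RankZeroShaTwo (A24 D) (B24 D) ∧ BSDRankZero (A24 D) (B24 D)

/-- The class group of the quadratic field `ℚ(√D)` has no element of order four. -/
def NoFour (D : ℤ) : Prop := ∀ (K : Type) [Field K] [NumberField K], Module.finrank ℚ K = 2 →
  (∃ a : K, a ^ 2 = (D : K)) →
  ∀ c : ClassGroup (NumberField.RingOfIntegers K), c ^ 4 = 1 → c ^ 2 = 1

/-- the class of the numbers `M` -/
def InClass (M : ℤ) : Prop := Squarefree M ∧ M < 0 ∧ (M % 120 = 13 ∨ M % 120 = 37)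

/-- the shifts for `X_0(15)` -/
def Shift15 (x : ℤ) : Prop := Squarefree x ∧ 0 < x ∧ x % 3 = 1 ∧ (x % 5 = 1 ∨ x % 5 = 4)

/-- the shifts for `X_0(24)` -/
def Shift24 (x : ℤ) : Prop := Squarefree x ∧ 0 < x ∧ x % 24 = 1

/-- For the curves for which `x` is a shift: the twist by `M x` is good. -/
def AllGood (M x : ℤ) : Prop := (Shift15 x → Good15 (M * x)) ∧ (Shift24 x → Good24 (M * x))

/-- For the curves for which `x` is a shift: the twist by `M x` has infinitely many rational points or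
an element of order two in `Ш`. -/
def AllBad (M x : ℤ) : Prop :=
  (Shift15 x → ¬ RankZeroShaTwo (A15 (M * x)) (B15 (M * x))) ∧
    (Shift24 x → ¬ RankZeroShaTwo (A24 (M * x)) (B24 (M * x)))

open Classical in
/-- the number of the squarefree integers `M`, `|M| ≤ X`, with the property `P` -/
noncomputable def count (P : ℤ → Prop) (X : ℕ) : ℝ :=
  (((Finset.Icc (-(X : ℤ)) X).filter fun M : ℤ => Squarefree M ∧ P M).card : ℝ)

/-- the constant `η` -/
noncomputable def eta : ℝ := ∏' i : ℕ, (1 - (1 / 2 : ℝ) ^ (i + 1))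

section proof

open Pool.Agent.NH4 Pool.Agent.NH4.XI
open Pool.Agent.XV.T (RZ)
open Pool.Agent.X24.F (RZ24 S_OUT24 disc24_ne)
open Pool.Agent.NH4.XF (cz cz_congr' patterns)

theorem rankZero_iff (a b : ℤ) : RankZeroShaTwo a b ↔
    Finite (Pool.Agent.Z702.sh a b).toAffine.Point ∧
      ∀ x : Pool.Agent.TH841.SH.D.Sha (Pool.Agent.Z702.sh a b), x + x = 0 → x = 0 := by
  unfold RankZeroShaTwo
  refine and_congr Iff.rfl (forall_congr' fun x => ?_)
  rw [two_nsmul]
  rfl

theorem disc15 {D : ℤ} (h : D ≠ 0) : 4 * A15 D ^ 3 + 27 * B15 D ^ 2 ≠ 0 := by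
  have e : 4 * A15 D ^ 3 + 27 * B15 D ^ 2 = -6887475360000 * D ^ 6 := by
    unfold A15 B15
    ring
  rw [e]
  exact mul_ne_zero (by norm_num) (pow_ne_zero 6 h)

theorem noFour_scale {N D k : ℤ} (hk : k ≠ 0) (e : N = D * k ^ 2) : NoFour N ↔ NoFour D := by
  unfold NoFour
  refine forall_congr' fun K => forall_congr' fun _ => forall_congr' fun _ => forall_congr' fun _ =>
    imp_congr ?_ Iff.rfl
  have hkK : (k : K) ≠ 0 := by exact_mod_cast hk
  rw [e]
  constructor
  · rintro ⟨a, ha⟩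
    refine ⟨a / k, ?_⟩
    rw [div_pow, ha]
    push_cast
    field_simp
  · rintro ⟨a, ha⟩
    refine ⟨a * k, ?_⟩
    rw [mul_pow, ha]
    push_cast
    rfl

theorem main15 {M x : ℤ} (hM : InClass M) (hx : Shift15 x) :
    (RankZeroShaTwo (A15 (M * x)) (B15 (M * x)) ↔ NoFour (M * x)) ∧
    (RankZeroShaTwo (A15 (M * x)) (B15 (M * x)) ↔ Evt M x) ∧
    (RankZeroShaTwo (A15 (M * x)) (B15 (M * x)) → BSDRankZero (A15 (M * x)) (B15 (M * x))) := by
  obtain ⟨h1, ⟨D, k, h2, h3, h4⟩, h5⟩ := one15 hM hx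
  have e : RankZeroShaTwo (A15 (M * x)) (B15 (M * x)) ↔ RZ (M * x) := rankZero_iff _ _
  refine ⟨?_, e.trans h1, fun g => ⟨disc15 (mul_ne_zero hM.2.1.ne hx.2.1.ne'), h5 (e.1 g)⟩⟩
  rw [e, noFour_scale h2 h3]
  exact h4

theorem main24 (hO : S_OUT24) {M x : ℤ} (hM : InClass M) (hx : Shift24 x) :
    (RankZeroShaTwo (A24 (M * x)) (B24 (M * x)) ↔ NoFour (M * x)) ∧
    (RankZeroShaTwo (A24 (M * x)) (B24 (M * x)) ↔ Evt M x) ∧
    (RankZeroShaTwo (A24 (M * x)) (B24 (M * x)) → BSDRankZero (A24 (M * x)) (B24 (M * x))) := by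
  obtain ⟨h1, ⟨D, k, h2, h3, h4⟩, h5⟩ := one24 hO hM hx
  have e : RankZeroShaTwo (A24 (M * x)) (B24 (M * x)) ↔ RZ24 (M * x) := rankZero_iff _ _
  refine ⟨?_, e.trans h1, fun g => ⟨disc24_ne (mul_ne_zero hM.2.1.ne hx.2.1.ne'), h5 (e.1 g)⟩⟩
  rw [e, noFour_scale h2 h3]
  exact h4

theorem allGood_iff (hO : S_OUT24) {M x : ℤ} (hM : InClass M) (hx : Shift15 x ∨ Shift24 x) :
    AllGood M x ↔ Evt M x := by
  unfold AllGood Good15 Good24
  constructor
  · rintro ⟨h1, h2⟩
    rcases hx with hx | hx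
    · exact (main15 hM hx).2.1.1 (h1 hx).1
    · exact (main24 hO hM hx).2.1.1 (h2 hx).1
  · intro h
    refine ⟨fun hx => ?_, fun hx => ?_⟩
    · have g := (main15 hM hx).2.1.2 h
      exact ⟨g, (main15 hM hx).2.2 g⟩
    · have g := (main24 hO hM hx).2.1.2 h
      exact ⟨g, (main24 hO hM hx).2.2 g⟩

theorem allBad_iff (hO : S_OUT24) {M x : ℤ} (hM : InClass M) (hx : Shift15 x ∨ Shift24 x) :
    AllBad M x ↔ ¬ Evt M x := by
  unfold AllBad
  constructor
  · rintro ⟨h1, h2⟩ h
    rcases hx with hx | hx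
    · exact h1 hx ((main15 hM hx).2.1.2 h)
    · exact h2 hx ((main24 hO hM hx).2.1.2 h)
  · intro h
    exact ⟨fun hx g => h ((main15 hM hx).2.1.1 g), fun hx g => h ((main24 hO hM hx).2.1.1 g)⟩

theorem law (hO : S_OUT24) {k : ℕ} {x : Fin (k + 1) → ℤ} (hx : ∀ t, Shift15 (x t) ∨ Shift24 (x t))
    (hi : Function.Injective x) {m : ℕ} (hm : 0 < m) {R : Finset ℤ}
    (hR : ∃ M : ℤ, InClass M ∧ M % m ∈ R) (T : Finset (Fin (k + 1))) :
    Tendsto (fun X : ℕ => cz (fun M => (InClass M ∧ M % m ∈ R) ∧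
        (∀ t ∈ T, AllGood M (x t)) ∧ ∀ t ∉ T, AllBad M (x t)) X /
      cz (fun M => InClass M ∧ M % m ∈ R) X) atTop
      (𝓝 (eta ^ T.card * (1 - eta) ^ (k + 1 - T.card))) := by
  have hx0 : ∀ t, Squarefree (x t) ∧ 0 < x t := fun t => by
    rcases hx t with h | h
    · exact ⟨h.1, h.2.1⟩
    · exact ⟨h.1, h.2.1⟩
  have hxe : eta ≠ 0 := by
    have : (0.2887 : ℝ) < eta := Pool.Agent.NH5.PR.t_ETA.2.2.2.1
    linarith
  have key := inclusion (Cl := CT m R) (P := fun t M => Evt M (x t)) hxe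
    (fun S hS => ?_) T
  · rw [Fintype.card_fin] at key
    refine key.congr fun X => ?_
    have e1 : cz (CT m R) X = cz (fun M => InClass M ∧ M % m ∈ R) X := rfl
    rw [← e1]
    congr 1
    refine cz_congr' (fun M _ => ?_) X
    constructor
    · rintro ⟨h1, h2, h3⟩
      exact ⟨h1, fun t ht => (allGood_iff hO h1.1 (hx t)).2 (h2 t ht),
        fun t ht => (allBad_iff hO h1.1 (hx t)).2 (h3 t ht)⟩
    · rintro ⟨h1, h2, h3⟩
      exact ⟨h1, fun t ht => (allGood_iff hO h1.1 (hx t)).1 (h2 t ht),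
        fun t ht => (allBad_iff hO h1.1 (hx t)).1 (h3 t ht)⟩
  · have : Nonempty S := hS.to_subtype
    have h1 := law_joint (ι := S) (x := fun t => x t.1) (fun t => hx0 t.1)
      (fun a b hab => Subtype.ext (hi hab)) hm (T := R) hR
    rw [Fintype.card_coe] at h1
    have e : ∀ X : ℕ, cz (fun M => CT m R M ∧ ∀ t : S, Evt M (x t.1)) X =
        cz (fun M => CT m R M ∧ ∀ t ∈ S, Evt M (x t)) X := by
      intro X
      refine cz_congr' (fun M _ => and_congr_right fun _ => ?_) X
      constructor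
      · intro g t ht
        exact g ⟨t, ht⟩
      · intro g t
        exact g t.1 t.2
    simp only [e] at h1
    exact h1

end proof

open Pool.Agent.X24.F in
/-- **Main theorem.** -/
theorem result :
    (∀ M x : ℤ, InClass M → Shift15 x →
      (RankZeroShaTwo (A15 (M * x)) (B15 (M * x)) ↔ NoFour (M * x)) ∧
      (NoFour (M * x) → BSDRankZero (A15 (M * x)) (B15 (M * x)))) ∧
    (∀ M x : ℤ, InClass M → Shift24 x →
      (RankZeroShaTwo (A24 (M * x)) (B24 (M * x)) ↔ NoFour (M * x)) ∧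
      (NoFour (M * x) → BSDRankZero (A24 (M * x)) (B24 (M * x)))) ∧
    (∀ (k : ℕ) (x : Fin (k + 1) → ℤ), (∀ t, Shift15 (x t) ∨ Shift24 (x t)) →
      Function.Injective x → ∀ T : Finset (Fin (k + 1)),
      (∀ (m : ℕ) (R : Finset ℤ), 0 < m → (∃ M : ℤ, InClass M ∧ M % m ∈ R) →
        Tendsto (fun X : ℕ => count (fun M => (InClass M ∧ M % m ∈ R) ∧
            (∀ t ∈ T, AllGood M (x t)) ∧ ∀ t ∉ T, AllBad M (x t)) X /
          count (fun M => InClass M ∧ M % m ∈ R) X) atTop
          (𝓝 (eta ^ T.card * (1 - eta) ^ (k + 1 - T.card))) ∧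
        ∃ (c : ℝ) (X₀ : ℕ), 0 < c ∧ ∀ X : ℕ, X₀ ≤ X → c * X ≤
          count (fun M => (InClass M ∧ M % m ∈ R) ∧
            (∀ t ∈ T, AllGood M (x t)) ∧ ∀ t ∉ T, AllBad M (x t)) X) ∧
      Tendsto (fun X : ℕ => count (fun M => InClass M ∧
          (∀ t ∈ T, AllGood M (x t)) ∧ ∀ t ∉ T, AllBad M (x t)) X / X) atTop
        (𝓝 (5 / (32 * Real.pi ^ 2) * (eta ^ T.card * (1 - eta) ^ (k + 1 - T.card)))) ∧
      Tendsto (fun X : ℕ => count (fun M => InClass M ∧
          (∀ t ∈ T, AllGood M (x t)) ∧ ∀ t ∉ T, AllBad M (x t)) X /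
        count (fun _ => True) X) atTop
        (𝓝 (5 / 384 * (eta ^ T.card * (1 - eta) ^ (k + 1 - T.card))))) ∧
    0.2887 < eta ∧ eta < 0.2888 := by
  have hO : S_OUT24 := out24
  have hη : 0.2887 < eta ∧ eta < 0.2888 :=
    ⟨Pool.Agent.NH5.PR.t_ETA.2.2.2.1, Pool.Agent.NH5.PR.t_ETA.2.2.2.2⟩
  refine ⟨fun M x hM hx => ⟨(main15 hM hx).1, fun g => (main15 hM hx).2.2 ((main15 hM hx).1.2 g)⟩,
    fun M x hM hx => ⟨(main24 hO hM hx).1, fun g => (main24 hO hM hx).2.2 ((main24 hO hM hx).1.2 g)⟩,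
    fun k x hx hi T => ?_, hη⟩
  have hpos : 0 < eta ^ T.card * (1 - eta) ^ (k + 1 - T.card) := by
    have g1 : 0 < eta := by linarith [hη.1]
    have g2 : 0 < 1 - eta := by linarith [hη.2]
    positivity
  have h1 := law hO hx hi (m := 1) one_pos (R := {0}) ⟨-83, ⟨?_, by norm_num, by norm_num⟩, by simp⟩ T
  · have h2 : Tendsto (fun X : ℕ => Pool.Agent.NH4.XF.cz (fun M => InClass M ∧
        (∀ t ∈ T, AllGood M (x t)) ∧ ∀ t ∉ T, AllBad M (x t)) X /
        Pool.Agent.NH4.XF.cz Pool.Agent.NH4.XI.CM X) atTop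
        (𝓝 (eta ^ T.card * (1 - eta) ^ (k + 1 - T.card))) := by
      refine h1.congr fun X => ?_
      congr 1
      · refine Pool.Agent.NH4.XF.cz_congr' (fun M _ => ?_) X
        simp
      · refine Pool.Agent.NH4.XF.cz_congr' (fun M _ => ?_) X
        simp only [Nat.cast_one, Int.emod_one, Finset.mem_singleton, and_true]
        exact Iff.rfl
    refine ⟨fun m R hm hR => ⟨law hO hx hi hm hR T, ?_⟩, Pool.Agent.NH4.XI.count_form h2,
      Pool.Agent.NH4.XI.all_form h2⟩
    exact Pool.Agent.NH4.XI.low_of hpos (law hO hx hi hm hR T) (Pool.Agent.NH4.XI.low_CT hm hR)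
  · rw [← Int.squarefree_natAbs]
    exact (by norm_num : Nat.Prime 83).squarefree

end Pool.Agent.Results.MP_696deb_nt.JointLawX15X24
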