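import Pool.Agent.NH5.PR.Trl

/-!
# The rank form of the conjecture of Birch and Swinnerton-Dyer for an exact proportion `0.2887…` of the
# quadratic twists of `X_0(14)` in a class of at least `c X / √(log log X)` discriminants up to `X`

`C_D : y² = x³ + 5805 D² x - 285714 D³` is the quadratic twist by `D` of a model of the modular curve
`X_0(14)`, which has no complex multiplication. The class consists of all squarefree `D ≠ 1`,
positive or negative, `D ≡ 1 mod 4`, prime to `7`, with as many prime factors which are split in `ℚ(√2)`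
and inert in `ℚ(√-7)` as prime factors which are inert in `ℚ(√2)` and split in `ℚ(√-7)`. There is no
other restriction on the prime factors. The number of these `D` with `|D| ≤ X` is at least
`c X / √(log log X)`, so that the class has almost a positive density.

* For all `D` in the class: if `C_D(ℚ)` is finite and `Ш(C_D/ℚ)[2] = 0`, then
  `ord_{s=1} L(C_D, s) = 0 = rank C_D(ℚ)` (the `2`-converse in the minimal case).
* The proportion of the `D` in the class with this property, in the order of `|D|`, tends to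
  `∏_{i ≥ 1} (1 - 2^{-i}) = 0.2887…`. The same is true for the positive, for the negative `D`, for the
  `D` in any set of odd residue classes modulo `8`, and for those which are prime to any given integer `m`.

The proportion is the probability that a large random square matrix over `𝔽₂` is nonsingular; the matrix of
the quadratic residue symbols is neither square a priori nor symmetric here. For the criterion see
`CompleteTwoConverse`.
-/

set_option autoImplicit false

open Filter Topology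

namespace Pool.Agent.Results.MP_696deb_nt.NaturalOrderLaw

/-- coefficients of the twist `C_D : y² = x³ + A D x + B D` of `X_0(14)` -/
def A (D : ℤ) : ℤ := 5805 * D ^ 2

/-- coefficients of the twist `C_D : y² = x³ + A D x + B D` of `X_0(14)` -/
def B (D : ℤ) : ℤ := -285714 * D ^ 3

/-- the curve `C_D` over `ℚ` -/
def C (D : ℤ) : WeierstrassCurve ℚ :=
  { a₁ := 0, a₂ := 0, a₃ := 0, a₄ := (A D : ℚ), a₆ := (B D : ℚ) }

/-- `C_D(ℚ)` is finite and `Ш(C_D/ℚ)` has no element of order two -/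
def RankZeroShaTwo (D : ℤ) : Prop :=
  Finite (C D).toAffine.Point ∧ ∀ x : Pool.Agent.TH841.SH.D.Sha (C D), 2 • x = 0 → x = 0

/-- the conclusion of the frozen statement for `y² = x³ + a x + b`, with both the order of vanishing
and the rank equal to `0` -/
def BSDRankZero (a b : ℤ) : Prop :=
  4 * a ^ 3 + 27 * b ^ 2 ≠ 0 ∧
    ∃ F : ℂ → ℂ, Differentiable ℂ F ∧
      (∀ s : ℂ, (3 : ℝ) / 2 < s.re →
        HasProd
          (fun p : ℕ => open Classical in
            if p.Prime ∧ ¬ ((p : ℤ) ∣ 2 * (-4 * a ^ 3 - 27 * b ^ 2)) then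
              (1 - ((p : ℂ) - (Nat.card {q : ZMod p × ZMod p //
                  q.2 ^ 2 = q.1 ^ 3 + (a : ZMod p) * q.1 + (b : ZMod p)} : ℂ))
                  * (p : ℂ) ^ (-s) + (p : ℂ) ^ (1 - 2 * s))⁻¹
            else 1)
          (F s)) ∧
      analyticOrderAt F 1 = 0 ∧
      Module.finrank ℤ
        (WeierstrassCurve.Affine.Point
          (WeierstrassCurve.toAffine
            ({ a₁ := 0, a₂ := 0, a₃ := 0, a₄ := (a : ℚ), a₆ := (b : ℚ) } :
              WeierstrassCurve ℚ))) = 0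

/-- the odd prime `p ≠ 7` is split in `ℚ(√2)`: `p ≡ ± 1 mod 8` -/
def Sq2 (p : ℕ) : Prop := p % 8 = 1 ∨ p % 8 = 7

instance (p : ℕ) : Decidable (Sq2 p) := by unfold Sq2; infer_instance

/-- the odd prime `p ≠ 7` is split in `ℚ(√-7)`: `p` is a square modulo `7` -/
def Sq7 (p : ℕ) : Prop := p % 7 = 1 ∨ p % 7 = 2 ∨ p % 7 = 4

instance (p : ℕ) : Decidable (Sq7 p) := by unfold Sq7; infer_instance

/-- the number of the prime factors of `D` which are split in `ℚ(√2)` and inert in `ℚ(√-7)` -/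
def nA (D : ℤ) : ℕ := (D.natAbs.primeFactors.filter fun p => Sq2 p ∧ ¬ Sq7 p).card

/-- the number of the prime factors of `D` which are inert in `ℚ(√2)` and split in `ℚ(√-7)` -/
def nB (D : ℤ) : ℕ := (D.natAbs.primeFactors.filter fun p => ¬ Sq2 p ∧ Sq7 p).card

/-- the class of the discriminants, positive and negative -/
def InClass (D : ℤ) : Prop := D ≠ 1 ∧ Squarefree D ∧ D % 4 = 1 ∧ ¬ (7 : ℤ) ∣ D ∧ nA D = nB D

open Classical in
/-- the number of the integers `D`, `|D| ≤ X`, with the property `Q` -/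
noncomputable def count (Q : ℤ → Prop) (X : ℕ) : ℕ :=
  ((Finset.Icc (-(X : ℤ)) X).filter Q).card

section proof

open Pool.Agent.NH5.PR
open Pool.Agent.NH5.LK (NoSel)

theorem rankZero_iff (D : ℤ) : RankZeroShaTwo D ↔ NoSel D := by
  unfold RankZeroShaTwo NoSel
  refine and_congr Iff.rfl (forall_congr' fun x => ?_)
  rw [two_nsmul]
  rfl

theorem count_eq (Q : ℤ → Prop) (X : ℕ) : count Q X = ct Q X := rfl

theorem inClass_iff (D : ℤ) : InClass D ↔ D ≠ 1 ∧ Bal D := Iff.rfl

theorem bsd {D : ℤ} (h : InClass D) (hr : RankZeroShaTwo D) : BSDRankZero (A D) (B D) := by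
  obtain ⟨h1, hs, h4, h7, hc⟩ := h
  have hA : Pool.Agent.NH5.GD.Adm D := ⟨hs, h4, h7⟩
  exact ⟨Pool.Agent.NH5.LK.disc_ne hA.n0, Pool.Agent.NH5.LK.bsd_of hA h1 (le_of_eq hc.symm)
    ((rankZero_iff D).1 hr)⟩

end proof

open Pool.Agent.NH5.PR in
/-- **Main theorem.** -/
theorem result :
    (∀ D : ℤ, InClass D → RankZeroShaTwo D → BSDRankZero (A D) (B D)) ∧
    (0.2887 < ∏' i : ℕ, (1 - (1 / 2 : ℝ) ^ (i + 1)) ∧ ∏' i : ℕ, (1 - (1 / 2 : ℝ) ^ (i + 1)) < 0.2888) ∧
    ∀ (m : ℕ) (R : Finset ℕ), 0 < m → R.Nonempty → R ⊆ {1, 3, 5, 7} →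
      Tendsto (fun X : ℕ =>
        (count (fun D => InClass D ∧ Int.gcd D m = 1 ∧ D.natAbs % 8 ∈ R ∧ RankZeroShaTwo D) X : ℝ) /
        (count (fun D => InClass D ∧ Int.gcd D m = 1 ∧ D.natAbs % 8 ∈ R) X : ℝ)) atTop
        (𝓝 (∏' i : ℕ, (1 - (1 / 2 : ℝ) ^ (i + 1)))) ∧
      ∃ (c : ℝ) (X₀ : ℕ), 0 < c ∧ ∀ X : ℕ, X₀ ≤ X → c * X / Real.sqrt (Real.log (Real.log X)) ≤
        (count (fun D => InClass D ∧ Int.gcd D m = 1 ∧ D.natAbs % 8 ∈ R ∧ RankZeroShaTwo D ∧
          BSDRankZero (A D) (B D)) X : ℝ) := by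
  refine ⟨fun D => bsd, ⟨t_ETA.2.2.2.1, t_ETA.2.2.2.2⟩, fun m R hm hR hR8 => ?_⟩
  have hR8' : ∀ r ∈ R, r = 1 ∨ r = 3 ∨ r = 5 ∨ r = 7 := by
    intro r hr
    have := hR8 hr
    simpa using this
  obtain ⟨h1, c, X₀, hc, h2⟩ := law' hm hR hR8'
  refine ⟨?_, c, X₀, hc, fun X hX => ?_⟩
  · refine h1.congr fun X => ?_
    rw [count_eq, count_eq]
    congr 2
    · refine ct_congr (fun D => ?_) X
      rw [inClass_iff, rankZero_iff]
      tauto
    · refine ct_congr (fun D => ?_) X
      rw [inClass_iff]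
      tauto
  · refine (h2 X hX).trans ?_
    rw [count_eq]
    have h3 := ct_mono (X := X) (Q := fun D => D ≠ 1 ∧ (Bal D ∧ Int.gcd D m = 1 ∧
      Pool.Agent.NH5.LK.NoSel D) ∧ D.natAbs % 8 ∈ R) (Q' := fun D => InClass D ∧ Int.gcd D m = 1 ∧
      D.natAbs % 8 ∈ R ∧ RankZeroShaTwo D ∧ BSDRankZero (A D) (B D)) (by
        rintro D ⟨g1, ⟨g2, g3, g4⟩, g5⟩
        have g6 : InClass D := ⟨g1, g2⟩
        have g7 := (rankZero_iff D).2 g4
        exact ⟨g6, g3, g5, g7, bsd g6 g7⟩)
    exact_mod_cast h3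

end Pool.Agent.Results.MP_696deb_nt.NaturalOrderLaw
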